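import Pool.Agent.L5helper7.RT.Low

/-!
# The thresholds in random models of the primes

Let the odd integers `m` be chosen independently with probabilities between `c / log m` and `C / log m`, and let the
`i`-primes of the random set be defined by iteration as in the question. Almost surely the largest `n = L(a, b)` such
that `2 n` has no representation of type `(a, b)` exists for all `a`, `b`, and
`exp (k log k / 2) ≤ L(a, b) < exp (150 k log k)`, `k = max (a, b) + 1`, for all but finitely many types `(a, b)`. So the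
assertion of the question, with the smaller threshold `f₂`, holds for all but finitely many types.

Proof. Given the chosen integers up to `n`, the `a`-primes and the `b`-primes up to `n` are known; their gaps are bounded
by powers of the gaps of the random set. Let `u < n` be an `a`-prime and `v = 2 n - u`. Given the choices below a block in
front of `v`, the integer `v` is a `b`-prime if it is chosen and its index, the number of the chosen integers up to `v`,
is a `(b - 1)`-prime. The number of the chosen integers in the block is a sum of independent coins; a part of them can be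
regarded as fair coins, so it hits the `(b - 1)`-primes with a probability at least the reciprocal of the length of the
block. There are more than `√n` times as many blocks. The lower bound comes from the smallest `(k - 1)`-prime.
-/

set_option autoImplicit false

open MeasureTheory ProbabilityTheory Filter

namespace Pool.Agent.Results.MP_e3f158_nt.RandomThresholds

/-- the set of the integers `m ≥ 1` chosen at the outcome `ω`; `A m` is the event that `m` is chosen -/
def chosen {Ω : Type*} (A : ℕ → Set Ω) (ω : Ω) : Set ℕ := {m | 1 ≤ m ∧ ω ∈ A m}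

/-- the `x`-th element of `S`, for `x ≥ 1` -/
noncomputable def pr (S : Set ℕ) (x : ℕ) : ℕ := Nat.nth (fun m => m ∈ S) (x - 1)

/-- the `x`-th `i`-prime of `S`, for `x ≥ 1`: the `(i + 1)`-fold iterate of `pr S` -/
noncomputable def iPrime (S : Set ℕ) (i x : ℕ) : ℕ := (pr S)^[i + 1] x

/-- `m` has a representation of type `(a, b)` -/
def HasRep (S : Set ℕ) (a b m : ℕ) : Prop :=
  ∃ x y : ℕ, 1 ≤ x ∧ 1 ≤ y ∧ iPrime S a x + iPrime S b y = m ∧ iPrime S a x ≠ iPrime S b y

/-- the function `f₂` of the question -/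
noncomputable def f₂ (a b : ℕ) : ℝ :=
  if a = b then
    (if a = 0 then (2 : ℝ) ^ (((a : ℝ) + 1) * (b + 1) * (a + b + 2))
      else (2 : ℝ) ^ (((a : ℝ) + 1) ^ 2 * (2 * a + 3) / a - 2 * a))
  else (2 : ℝ) ^ (((a : ℝ) + 1) * (b + 1) * (a + b + 2) - (a + b - 2))

/-- `k log k` with `k = max (a, b) + 1` -/
noncomputable def size (a b : ℕ) : ℝ := ((max a b + 1 : ℕ) : ℝ) * Real.log ((max a b + 1 : ℕ) : ℝ)

lemma hasRep_iff {Ω : Type*} (A : ℕ → Set Ω) (ω : Ω) (a b m : ℕ) :
    HasRep (chosen A ω) a b m ↔ Pool.Agent.L5helper7.RT.HasRep (Pool.Agent.L5helper7.RT.RR A ω) a b m := by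
  have h1 : pr (chosen A ω) = Pool.Agent.L5helper7.RT.pr (Pool.Agent.L5helper7.RT.RR A ω) := by
    funext x
    unfold pr Pool.Agent.L5helper7.RT.pr
    congr 1
    funext m
    apply propext
    unfold chosen Pool.Agent.L5helper7.RT.RR
    simp only [Set.mem_setOf_eq]
    tauto
  unfold HasRep Pool.Agent.L5helper7.RT.HasRep iPrime Pool.Agent.L5helper7.RT.iPrime
  rw [h1]

/-- **The thresholds of the question in random models of the primes.** Let the events `A m` (`m` is chosen) be
independent, let `1` be almost never chosen, and for all `m ≥ m₀` let the probability of `A m` be between `c / log m` and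
`C / log m` if `m` is odd, and zero if `m` is even. Then almost surely, for the set `S` of the chosen integers: for all
`a`, `b` all but finitely many even numbers have a representation of type `(a, b)`; and for all but finitely many pairs
`(a, b)` the largest `n = L` such that `2 n` has no such representation satisfies
`exp (k log k / 2) ≤ L < exp (150 k log k)`, `k = max (a, b) + 1`, and `L < f₂ (a, b)`. -/
theorem result {Ω : Type*} [MeasurableSpace Ω] (μ : Measure Ω) [IsProbabilityMeasure μ] (A : ℕ → Set Ω)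
    (hA : ∀ m, MeasurableSet (A m)) (hind : iIndepSet A μ) (h1 : μ (A 1) = 0) (c C : ℝ) (hc : 0 < c) (m₀ : ℕ)
    (hodd : ∀ m, m₀ ≤ m → Odd m → c / Real.log m ≤ (μ (A m)).toReal ∧ (μ (A m)).toReal ≤ C / Real.log m)
    (heven : ∀ m, m₀ ≤ m → Even m → μ (A m) = 0) :
    ∀ᵐ ω ∂μ, (chosen A ω).Infinite ∧
      (∀ a b, {n : ℕ | ¬ HasRep (chosen A ω) a b (2 * n)}.Finite) ∧
      {t : ℕ × ℕ | ¬ ∃ L : ℕ, IsGreatest {n : ℕ | ¬ HasRep (chosen A ω) t.1 t.2 (2 * n)} L ∧
        Real.exp (size t.1 t.2 / 2) ≤ L ∧ L < Real.exp (150 * size t.1 t.2) ∧ L < f₂ t.1 t.2}.Finite := by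
  have hM : Pool.Agent.L5helper7.RT.Model μ A c C m₀ := ⟨hodd, heven⟩
  obtain ⟨K₃, hK₃⟩ := Pool.Agent.L5helper7.RT.f2_large
  filter_upwards [Pool.Agent.L5helper7.RT.upper μ A hA hind c C hc m₀ hM,
    Pool.Agent.L5helper7.RT.lower μ A hA hind c C hc m₀ hM h1] with ω hU hL
  obtain ⟨hinf, hfin, K₁, hK₁⟩ := hU
  obtain ⟨K₂, hK₂⟩ := hL
  have hfin' : ∀ a b, {n : ℕ | ¬ HasRep (chosen A ω) a b (2 * n)}.Finite := by
    intro a b
    obtain ⟨n₀, hn₀⟩ := hfin a b
    refine (Set.finite_lt_nat n₀).subset (fun n hn => ?_)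
    by_contra hcon
    exact hn ((hasRep_iff A ω a b (2 * n)).2 (hn₀ n (not_lt.1 hcon)))
  refine ⟨hinf, hfin', ?_⟩
  refine ((Set.finite_lt_nat (max K₁ (max K₂ K₃))).prod (Set.finite_lt_nat (max K₁ (max K₂ K₃)))).subset ?_
  rintro ⟨a, b⟩ hab
  by_contra hcon
  apply hab
  have hmax : max K₁ (max K₂ K₃) ≤ max a b := by
    by_contra hlt
    apply hcon
    rw [not_le] at hlt
    exact ⟨(le_max_left a b).trans_lt hlt, (le_max_right a b).trans_lt hlt⟩
  obtain ⟨n, hn, hnr⟩ := hK₂ a b (((le_max_left _ _).trans (le_max_right _ _)).trans hmax)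
  have hne : {n : ℕ | ¬ HasRep (chosen A ω) a b (2 * n)}.Nonempty :=
    ⟨n, fun h => hnr ((hasRep_iff A ω a b (2 * n)).1 h)⟩
  have hbdd : BddAbove {n : ℕ | ¬ HasRep (chosen A ω) a b (2 * n)} := (hfin' a b).bddAbove
  set L := sSup {n : ℕ | ¬ HasRep (chosen A ω) a b (2 * n)} with hLdef
  have hLm : L ∈ {n : ℕ | ¬ HasRep (chosen A ω) a b (2 * n)} := Nat.sSup_mem hne hbdd
  have hgr : IsGreatest {n : ℕ | ¬ HasRep (chosen A ω) a b (2 * n)} L := ⟨hLm, fun m hm => le_csSup hbdd hm⟩
  have h3 : (L : ℝ) < Real.exp (150 * size a b) := by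
    by_contra h4
    rw [not_lt] at h4
    exact hLm ((hasRep_iff A ω a b (2 * L)).2 (hK₁ a b ((le_max_left _ _).trans hmax) L h4))
  refine ⟨L, hgr, ?_, h3, ?_⟩
  · have h5 : n ≤ L := hgr.2 (fun h => hnr ((hasRep_iff A ω a b (2 * n)).1 h))
    have h6 : (n : ℝ) ≤ L := by exact_mod_cast h5
    refine le_trans (le_of_eq ?_) (hn.trans h6)
    unfold size
    congr 1
    ring
  · exact h3.trans_le (hK₃ a b (((le_max_right _ _).trans (le_max_right _ _)).trans hmax))

end Pool.Agent.Results.MP_e3f158_nt.RandomThresholds
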