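import Pool.Agent.L5helper7.IP.Main

/-!
# The full assertion of the question, for all types at once, in short intervals

Let `θ < 1` be an exponent such that the intervals `(X, X + Y]` with `X ^ θ ≤ Y ≤ X` contain at least `η Y / log X` primes
(for large `X`, some `η > 0`); such exponents exist (Hoheisel), and `θ = 0.525` is known to be one (Baker, Harman and Pintz).

* Every interval `(x - H, x]` with `H ≥ x ^ (θ ^ 2 + ε)` contains an `n` for which the assertion of the question holds for
  ALL the types at once: `2 n` has a representation of type `(a, b)` for all `a`, `b` with `f₂(a, b) ≤ n`. With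
  `θ = 0.525` this is an interval of length `x ^ 0.276`.
* Every interval `(x - H, x]` with `x ^ (θ + ε) ≤ H ≤ x / 2` contains at least `H exp (- √(log x) log log x)` such `n`.

Proof. A prime in `(X, X + Y]` is an `(a+1)`-prime if its index, which lies between `π(X)` and `π(X + Y)`, is an `a`-prime. So
the `a`-primes in short intervals can be counted by induction on `a`, and the ratio of the logarithms of the length and of
the place changes so slowly that this works up to `a ~ √(log x)`, as needed for all the types with `f₂(a, b) ≤ x`.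
-/

set_option autoImplicit false

open Filter Topology

namespace Pool.Agent.Results.MP_e3f158_nt.ShortIntervals

/-- the `x`-th prime, for `x ≥ 1` -/
noncomputable def pr (x : ℕ) : ℕ := Nat.nth Nat.Prime (x - 1)

/-- the `x`-th `i`-prime, for `x ≥ 1`: the `(i + 1)`-fold iterate of `pr` -/
noncomputable def iPrime (i x : ℕ) : ℕ := pr^[i + 1] x

/-- `m` has a representation of type `(a, b)` -/
def HasRep (a b m : ℕ) : Prop :=
  ∃ x y : ℕ, 1 ≤ x ∧ 1 ≤ y ∧ iPrime a x + iPrime b y = m ∧ iPrime a x ≠ iPrime b y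

/-- the function `f₂` of the question -/
noncomputable def f₂ (a b : ℕ) : ℝ :=
  if a = b then
    (if a = 0 then (2 : ℝ) ^ (((a : ℝ) + 1) * (b + 1) * (a + b + 2))
      else (2 : ℝ) ^ (((a : ℝ) + 1) ^ 2 * (2 * a + 3) / a - 2 * a))
  else (2 : ℝ) ^ (((a : ℝ) + 1) * (b + 1) * (a + b + 2) - (a + b - 2))

/-- `θ` is an exponent for primes in short intervals: for some `η > 0` and all large `X` the intervals `(X, X + Y]` with
`X ^ θ ≤ Y ≤ X` contain at least `η Y / log X` primes -/
def PrimesInShortIntervals (θ : ℝ) : Prop :=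
  0 < θ ∧ θ < 1 ∧ ∃ η : ℝ, 0 < η ∧ ∃ X₀ : ℕ, ∀ X Y : ℕ, X₀ ≤ X → (X : ℝ) ^ θ ≤ Y → Y ≤ X →
    η * Y / Real.log X ≤ (((Finset.Ioc X (X + Y)).filter Nat.Prime).card : ℝ)

/-- **All types at once in short intervals.** There are exponents `θ < 1` for primes in short intervals, and for all of
them and all `ε > 0`: (1) for all large `x` and all `H` with `x ^ (θ + ε) ≤ H ≤ x / 2` at least
`H exp (- √(log x) log log x)` of the `n` in `(x - H, x]` are such that `2 n` has a representation of type `(a, b)` for ALL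
`a`, `b` with `f₂(a, b) ≤ n`; (2) for all large `x` and all `H ≥ x ^ (θ ^ 2 + ε)` there is such an `n` in `(x - H, x]`. -/
theorem result :
    (∃ θ : ℝ, PrimesInShortIntervals θ) ∧
    ∀ θ : ℝ, PrimesInShortIntervals θ → ∀ ε : ℝ, 0 < ε →
      (∀ᶠ x : ℕ in atTop, ∀ H : ℕ, (x : ℝ) ^ (θ + ε) ≤ H → 2 * H ≤ x →
        (H : ℝ) * Real.exp (-(√(Real.log x) * Real.log (Real.log x))) ≤
          Set.ncard {n : ℕ | x < n + H ∧ n ≤ x ∧ ∀ a b : ℕ, f₂ a b ≤ n → HasRep a b (2 * n)}) ∧
      (∀ᶠ x : ℕ in atTop, ∀ H : ℕ, (x : ℝ) ^ (θ ^ 2 + ε) ≤ H →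
        ∃ n : ℕ, x < n + H ∧ n ≤ x ∧ ∀ a b : ℕ, f₂ a b ≤ n → HasRep a b (2 * n)) :=
  ⟨Pool.Agent.L5helper7.IP.hoh_exists, fun _ h _ hε =>
    ⟨Pool.Agent.L5helper7.IP.many h hε, Pool.Agent.L5helper7.IP.one h hε⟩⟩

end Pool.Agent.Results.MP_e3f158_nt.ShortIntervals
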