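import Pool.Agent.L5helper16.XC.R1
import Pool.Agent.L5helper16.XC.W

/-!
# Simultaneous representations of all types `(a, 0)`, `a ≤ A`, of almost all multiples of a small primorial by integers whose
digits label the walks in a graph

The class of the walks has exponentially small exponential sums in the number of the places at which the frequency is not
near a rational number with a small denominator (starting files, `Pool.Agent.N625.GW`); the passage from such a decay to
almost all multiples and arbitrary dense sets of primes is `Pool.Agent.L5helper16.XC`, after helper625 (`Pool.Agent.N625.PT`),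
who treats the random integers with exchangeable blocks of digits.
-/

set_option autoImplicit false

open Finset

namespace Pool.Agent.Results.MP_e3f158_nt.WalkMultiples

/-- The digits `a < b` act on the set `X` of the vertices: an edge with the label `a` leads from `x` to `y` if
`δ x a = some y` (at most one edge with the label `a` starts at `x`). The number of the edges from `x` to `y` equals the
number of the edges from `y` to `x`, and at least two edges start at every vertex. The graph may be infinite. -/
structure Graph {X : Type} (b : ℕ) (δ : X → ℕ → Option X) : Prop where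
  symm : ∀ x y : X, {a : ℕ | a < b ∧ δ x a = some y}.ncard = {a : ℕ | a < b ∧ δ y a = some x}.ncard
  two : ∀ x : X, ∃ a a' : ℕ, a < a' ∧ a' < b ∧ (δ x a).isSome ∧ (δ x a').isSome

open Classical in
/-- The integers `v < b ^ k` whose `k` digits in base `b`, from the most significant to the least significant one (the
digit number `i`, `0 ≤ i < k`, from the left is `v / b ^ (k - 1 - i) % b`), are the labels of a walk from `x` to `y`. -/
noncomputable def walks {X : Type} (b : ℕ) (δ : X → ℕ → Option X) (k : ℕ) (x y : X) : Finset ℕ :=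
  (range (b ^ k)).filter fun v =>
    ((List.range k).map fun i => v / b ^ (k - 1 - i) % b).foldl (fun s a => s.bind fun z => δ z a) (some x) = some y

/-- The `i`-th `a`-prime: the `(a + 1)`-fold iterate of `k ↦ k`-th prime, applied to `i`. -/
noncomputable def ip (a i : ℕ) : ℕ := Nat.iterate (fun k : ℕ => Nat.nth Nat.Prime (k - 1)) (a + 1) i

open Classical in
/-- The `a`-primes `≤ x`. -/
noncomputable def IPs (a x : ℕ) : Finset ℕ := (Icc 1 x).filter (fun u => ∃ i : ℕ, 0 < i ∧ ip a i = u)

/-- the product of `1 - 1/q` over the primes `q ≤ y` -/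
noncomputable def V (y : ℕ) : ℝ := ∏ q ∈ (Icc 1 y).filter Nat.Prime, (1 - 1 / (q : ℝ))

/-- the multiple of the product of the primes `≤ y` given by the integers `h` and `c + κ v` -/
def Nv (y h : ℕ) (c κ : ℤ) (v : ℕ) : ℤ := ((primorial y * h : ℕ) : ℤ) * (c + κ * v)

/-- the `u ∈ S` such that `n - u` is prime -/
def Rep (S : Finset ℕ) (n : ℤ) : Finset ℕ := S.filter (fun u : ℕ => (n - u).toNat.Prime)

open Classical in
/-- Let `δ` be a graph whose edges are labelled with the digits in base `b`, let `x` be a vertex, and let `ρ > 0` be such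
that there are at most `ρ ^ (2 n)` closed walks of the length `2 n` at `x`, for all `n`. Let `D`, `κ ≠ 0`, `B`, `J`, `A`, `C`
and `0 < ε ≤ 1` be fixed. There is `K₀` such that for every `K₁` and all large `k` the following holds. Let `z` be a vertex
such that the number of the walks of the length `k` from `x` to `z` is at least `ρ ^ k / k ^ D`, let `y` be between
`K₀ log k` and `K₁ log k`, `M` the product of the primes `≤ y`, `|c| ≤ B b ^ k`, `H ≤ k ^ J`, and `N` an integer with
`b ^ k ≤ N k ^ C`, `N ≤ b ^ k k ^ C`. For all the integers `v` whose `k` digits are the labels of a walk from `x` to `z`, with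
the exception of a proportion of at most `ε` of them, all but at most `ε H` of the multiples `m = h M (c + κ v)`,
`1 ≤ h ≤ H`, have the following property: if `m > N`, then `m` has for EVERY `a ≤ A` at least
`(1 - ε) #U / (V y log b ^ k)` representations `m = u + q`, `u ∈ U` and `q` a prime, where `U` is the set of all `a`-primes
`u ≤ N`.

(For a group of polynomial growth, a free group, or any group with the property of rapid decay, there are at least
`ρ ^ k / k ^ D` closed walks of every even length `k` in the Cayley graph, where `ρ` is its spectral radius.) -/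
theorem result (b : ℕ) (X : Type) (δ : X → ℕ → Option X) (hG : Graph b δ) (x : X) (ρ : ℝ) (hρ : 0 < ρ)
    (hR : ∀ n : ℕ, ((walks b δ (2 * n) x x).card : ℝ) ≤ ρ ^ (2 * n)) (D : ℕ) (κ : ℤ) (hκ : κ ≠ 0) (B J A C : ℕ)
    (ε : ℝ) (hε : 0 < ε) (hε1 : ε ≤ 1) : ∃ K₀ : ℕ, ∀ K₁ : ℕ, ∃ k₀ : ℕ, ∀ k : ℕ, k₀ ≤ k →
    ∀ z : X, ρ ^ k / (k : ℝ) ^ D ≤ (walks b δ k x z).card → ∀ y : ℕ, K₀ * Real.log k ≤ y → y ≤ K₁ * Real.log k →
    ∀ c : ℤ, |c| ≤ B * (b : ℤ) ^ k → ∀ H : ℕ, H ≤ k ^ J → ∀ N : ℕ, b ^ k ≤ N * k ^ C → N ≤ b ^ k * k ^ C →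
      (((walks b δ k x z).filter fun v => ¬ ((((Icc 1 H).filter (fun h => ¬ ((N : ℤ) < Nv y h c κ v → ∀ a ≤ A,
        (1 - ε) * ((IPs a N).card / (V y * (k * Real.log b))) ≤ ((Rep (IPs a N) (Nv y h c κ v)).card : ℝ)))).card : ℝ) ≤
          ε * H)).card : ℝ) ≤ ε * (walks b δ k x z).card := by
  obtain ⟨K₀, h0⟩ := Pool.Agent.L5helper16.XC.multiples (Pool.Agent.L5helper16.XC.pc_walks (δ := δ) ⟨hG.symm, hG.two⟩ x ρ hρ
    hR D) κ hκ B J A C ε hε hε1
  refine ⟨K₀, fun K₁ => ?_⟩
  obtain ⟨k₀, h0⟩ := h0 K₁
  refine ⟨k₀ + 1, fun k hk z hz y hy1 hy2 c hc H hH N hN1 hN2 => ?_⟩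
  have hk1 : (0 : ℝ) < (k : ℝ) ^ D := by
    have : (0 : ℝ) < k := by exact_mod_cast (by omega : 0 < k)
    positivity
  have hz' : ρ ^ k ≤ (k : ℝ) ^ D * (walks b δ k x z).card := by
    rw [div_le_iff₀ hk1, mul_comm] at hz
    exact hz
  have h1 := Pool.Agent.N625.GW.w_count k x z ρ hρ D hz'
    (fun v => (((Icc 1 H).filter (fun h => ¬ ((N : ℤ) < Nv y h c κ v → ∀ a ≤ A,
        (1 - ε) * ((IPs a N).card / (V y * (k * Real.log b))) ≤ ((Rep (IPs a N) (Nv y h c κ v)).card : ℝ)))).card : ℝ) ≤
          ε * H) ε (fun p hp => by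
      refine le_trans (le_of_eq ?_) (h0 k (by omega) p hp y hy1 hy2 c hc H hH N hN1 hN2)
      apply sum_congr rfl
      intro v _
      congr!)
  refine le_trans (le_of_eq ?_) (h1.trans (le_of_eq (mul_comm _ _)))
  congr!

end Pool.Agent.Results.MP_e3f158_nt.WalkMultiples
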